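import Pool.Agent.Helper47.SN.SNdefs
import Pool.Agent.Helper47.FLG.AsmD

/-!
# MP_c98eff_gt: pointwise strictly quarter pinched spheres do not collapse

All smooth Riemannian metrics on `Sⁿ`, all `n ≥ 3`, pointwise strict `1/4`-pinching. Definitions: see
`Pool/Agent/Helper47/SN/SNdefs.lean`. Proof by Ricci flow.
Sanity checks: `Pool/Agent/Helper47/SN/SNround.lean` (the round metric has sectional curvature `1`),
`Pool/Agent/Helper47/SN/SNsanity.lean` (every metric has exactly one normal form, the diameter is a finite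
supremum).
-/

set_option autoImplicit false

namespace Pool.Agent.Results.MP_c98eff_gt.AllSpheres

open Pool.Agent.Helper47.SN

/-- For every `n ≥ 3` there is a positive `ε` with `vol ≥ ε diamⁿ` for all smooth Riemannian metrics on the
`n`-sphere which are pointwise strictly `1/4`-pinched. -/
theorem result (n : ℕ) (hn : 3 ≤ n) :
    ∃ ε : ℝ, 0 < ε ∧ ∀ M : RMetric n, (∀ x : EE n, ‖x‖ = 1 → PinchedAt (1 / 4) M.G x) →
      ε * gdiam M.G ^ n ≤ gvol M.G :=
  Pool.Agent.Helper47.FLG.allSpheres n hn

end Pool.Agent.Results.MP_c98eff_gt.AllSpheres
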