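import Pool.Agent.Helper73.CF.Final

/-!
No collapse of pointwise pinched metrics on spheres which are conformal to the round metric.
-/

namespace Pool.Agent.Results.MP_c98eff_gt.ConformalSphere

open Pool.Agent.QPinch Pool.Agent.Helper73.CF

/-- For every n at least 3 and every pinching constant δ there is a positive ε with
vol ≥ ε diam^n for all C^2 metrics on the n-sphere which are conformal to the round metric and
pointwise strictly δ-pinched. -/
theorem result (n : ℕ) (hn : 3 ≤ n) (δ : ℝ) (hδ : 0 < δ) :
    ∃ ε : ℝ, 0 < ε ∧ ∀ M : ConfMetric n,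
      (∀ (s : Bool) (x : Fin n → ℝ), PinchedAt δ (M.metric s) x) →
      ε * M.diam ^ n ≤ M.volume :=
  conf_noncollapse n hn δ hδ

end Pool.Agent.Results.MP_c98eff_gt.ConformalSphere
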