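import Pool.Agent.QPinch.Warp

/-!
No collapse of pointwise pinched doubly warped metrics on spheres of any dimension.
-/

namespace Pool.Agent.Results.MP_c98eff_gt.DoublyWarpedSphere

open Pool.Agent.QPinch

/-- For all p, q at least 1 and every pinching constant δ there is a positive ε with
vol ≥ ε diam^n, n = p + q + 1, for all metrics dr^2 + f^2 g_(S^p) + h^2 g_(S^q) on the n-sphere which
are pointwise strictly δ-pinched off the two singular spheres. -/
theorem result (p q : ℕ) (hp : 1 ≤ p) (hq : 1 ≤ q) (δ : ℝ) (hδ : 0 < δ) :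
    ∃ ε : ℝ, 0 < ε ∧ ∀ M : WarpMetric,
      (∀ x : Fin (p + q + 1) → ℝ, x 0 ∈ Set.Ioo 0 M.L → PinchedAt δ (M.metric p q) x) →
      ENNReal.ofReal (ε * M.diam p q ^ (p + q + 1)) ≤ M.volume p q :=
  warp_noncollapse p q hp hq δ hδ

end Pool.Agent.Results.MP_c98eff_gt.DoublyWarpedSphere
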