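import Pool.Agent.Helper73.RF.TSdefs
import Pool.Agent.Helper73.RF.TS
import Pool.Agent.Helper73.RF.Asm

/-!
# MP_c98eff_gt, n = 3: pointwise pinched metrics on the three-sphere do not collapse

All smooth Riemannian metrics on `S³`, every pinching constant `δ > 0`. Definitions: see
`Pool/Agent/Helper73/RF/TSdefs.lean`. Proof by Hamilton's Ricci flow.
Sanity checks: `Pool/Agent/Helper73/RF/TSround.lean` (the round metric has sectional curvature `1`),
`gdist_le_gdiam` in `Pool/Agent/Helper73/RF/TS.lean` (the diameter is a finite supremum).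
-/

set_option autoImplicit false

namespace Pool.Agent.Results.MP_c98eff_gt.ThreeSpheres

open Pool.Agent.Helper73.TS

/-- For every pinching constant `δ > 0` there is a positive `ε` with `vol ≥ ε diam³` for all smooth
Riemannian metrics on the three-sphere which are pointwise strictly `δ`-pinched. -/
theorem result (δ : ℝ) (hδ : 0 < δ) :
    ∃ ε : ℝ, 0 < ε ∧ ∀ M : RMetric, (∀ x : HH, ‖x‖ = 1 → PinchedAt δ M.g x) →
      ε * gdiam M.g ^ 3 ≤ gvol M.g :=
  ts Pool.Agent.Helper73.RF.main δ hδ

end Pool.Agent.Results.MP_c98eff_gt.ThreeSpheres
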